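import Pool.Agent.Helper23.PL.SpecB
import Pool.Agent.Helper43.HH.Leg

/-!
# PL-9 (CD). `T5` pins with large hubs, secondary scale (MP_0dbcb7_co)
-/

set_option autoImplicit false

open Set
open Pool.Agent.Helper83.OP Pool.Agent.Helper93.HH Pool.Agent.Helper43.HH
open Pool.Agent.Helper23.PL

namespace Pool.Agent.Helper75.PL

/-! ## legs -/

section legs

variable {V P Q : Type} {D : HD V P Q} {H : SimpleGraph V} {e0 : Sym2 V}
  {X : Sym2 V → Sym2 V → Prop}

/-- in the ball of radius `t` at `y`, or inside a pin whose foot is there -/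
def Near (D : HD V P Q) (t : ℕ) (y z : V) : Prop :=
  (z ∈ D.VN ∧ Nr D.N t y z) ∨
    ∃ q, z ∈ (D.w q).support ∧ z ≠ D.x q ∧ z ≠ D.hub q ∧ Nr D.N t y (D.x q)

theorem Near.two (hD : D.Ok) {t : ℕ} {y y' z : V} (h : Near D t y z) (h' : Near D t y' z) :
    Nr D.N (2 * t) y y' := by
  rw [Nat.two_mul]
  rcases h with ⟨h1, h2⟩ | ⟨q, h1, h2, h3, h4⟩
  · rcases h' with ⟨h5, h6⟩ | ⟨q', h5, h6, h7, h8⟩
    · exact h2.trans h6.symm
    · exact absurd h1 (hD.w_N q' z h5 h6)
  · rcases h' with ⟨h5, h6⟩ | ⟨q', h5, h6, h7, h8⟩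
    · exact absurd h5 (hD.w_N q z h1 h2)
    · have h9 := hD.w_disj q q' z h1 h5 h2 h3
      subst h9
      exact h4.trans h8.symm

/-- a walk in `N`, then a pin -/
theorem exists_leg [Finite V] (hD : D.Ok) (hX : D.Dr H e0 X) {t : ℕ} {y : V} {q : P}
    (h : Pn D t y q) (he : e0 ∉ (D.w q).edges) :
    ∃ W : H.Walk y (D.hub q), W.length ≤ t ∧
      ∀ z ∈ W.support, z = D.hub q ∨ (z ∉ D.U ∧ Near D t y z) := by
  obtain ⟨s, ⟨p, hp⟩, hst⟩ := h
  have hq : ∀ f ∈ (D.w q).edges, f ∈ H.edgeSet := by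
    intro f hf
    rw [hX.eq, SimpleGraph.edgeSet_deleteEdges]
    refine ⟨(D.w q).edges_subset_edgeSet hf, ?_⟩
    intro h1
    rw [Set.mem_singleton_iff] at h1
    exact he (h1 ▸ hf)
  refine ⟨(p.mapLe (N_le_H hD hX)).append ((D.w q).transfer H hq), ?_, ?_⟩
  · rw [SimpleGraph.Walk.length_append, SimpleGraph.Walk.length_transfer,
      SimpleGraph.Walk.length_map]
    omega
  · intro z hz
    rw [SimpleGraph.Walk.mem_support_append_iff, SimpleGraph.Walk.support_mapLe_eq_support,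
      SimpleGraph.Walk.support_transfer] at hz
    have hVN : ∀ z ∈ p.support, z ∈ D.VN ∧ Nr D.N t y z := by
      intro z hz
      refine ⟨?_, (Nr.of_mem hz).mono (by omega)⟩
      have h1 : z ∈ p.reverse.support := by
        rw [SimpleGraph.Walk.support_reverse, List.mem_reverse]
        exact hz
      exact HD.VN_of_walk p.reverse (HD.x_VN _) h1
    rcases hz with hz | hz
    · exact Or.inr ⟨HD.VN_U hD (hVN z hz).1, Or.inl (hVN z hz)⟩
    · by_cases h1 : z = D.hub q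
      · exact Or.inl h1
      · right
        refine ⟨hD.w_U q z hz h1, ?_⟩
        by_cases h2 : z = D.x q
        · subst h2
          exact Or.inl (hVN _ p.end_mem_support)
        · exact Or.inr ⟨q, hz, h2, h1, (hVN _ p.end_mem_support).2⟩

theorem Pn.self {p : P} {t : ℕ} (h : (D.w p).length ≤ t) : Pn D t (D.x p) p :=
  ⟨0, Nr.refl _ _ _, by omega⟩

end legs

/-! ## disjoint tripods -/

section tri

variable {V : Type} {H : SimpleGraph V} {U : Set V}

open Classical in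
theorem vs_card [Fintype V] (T : Tri H U) (l : ℕ) (hl : ∀ k, (T.W k).length ≤ l) :
    T.vs.toFinset.card ≤ 3 * (l + 1) := by
  have h1 : T.vs.toFinset ⊆
      ((T.W 0).support ++ ((T.W 1).support ++ (T.W 2).support)).toFinset := by
    intro v hv
    rw [Set.mem_toFinset] at hv
    obtain ⟨-, k, hk⟩ := hv
    rw [List.mem_toFinset, List.mem_append, List.mem_append]
    fin_cases k
    · exact Or.inl hk
    · exact Or.inr (Or.inl hk)
    · exact Or.inr (Or.inr hk)
  refine (Finset.card_le_card h1).trans ((List.toFinset_card_le _).trans ?_)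
  rw [List.length_append, List.length_append, SimpleGraph.Walk.length_support,
    SimpleGraph.Walk.length_support, SimpleGraph.Walk.length_support]
  have := hl 0
  have := hl 1
  have := hl 2
  omega

open Classical in
theorem es_card [Fintype V] (T : Tri H U) (l : ℕ) (hl : ∀ k, (T.W k).length ≤ l) :
    T.es.toFinset.card ≤ 3 * l := by
  have h1 : T.es.toFinset ⊆
      ((T.W 0).edges ++ ((T.W 1).edges ++ (T.W 2).edges)).toFinset := by
    intro v hv
    rw [Set.mem_toFinset] at hv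
    obtain ⟨k, hk⟩ := hv
    rw [List.mem_toFinset, List.mem_append, List.mem_append]
    fin_cases k
    · exact Or.inl hk
    · exact Or.inr (Or.inl hk)
    · exact Or.inr (Or.inr hk)
  refine (Finset.card_le_card h1).trans ((List.toFinset_card_le _).trans ?_)
  rw [List.length_append, List.length_append, SimpleGraph.Walk.length_edges,
    SimpleGraph.Walk.length_edges, SimpleGraph.Walk.length_edges]
  have := hl 0
  have := hl 1
  have := hl 2
  omega

/-- an edge of a tripod has an end outside `U` -/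
theorem es_vs (T : Tri H U) {f : Sym2 V} (hf : f ∈ T.es) : ∃ v ∈ f, v ∈ T.vs := by
  obtain ⟨k, hk⟩ := hf
  induction f using Sym2.ind with
  | _ u v =>
    have hu := (T.W k).fst_mem_support_of_mem_edges hk
    have hv := (T.W k).snd_mem_support_of_mem_edges hk
    have hadj := (T.W k).adj_of_mem_edges hk
    by_cases h1 : u ∈ U
    · refine ⟨v, Sym2.mem_mk_right _ _, ?_, k, hv⟩
      intro h2
      exact hadj.ne ((T.inner k u hu h1).trans (T.inner k v hv h2).symm)
    · exact ⟨u, Sym2.mem_mk_left _ _, h1, k, hu⟩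

theorem es_end (T : Tri H U) {f : Sym2 V} (hf : f ∈ T.es) {v : V} (hv : v ∈ f) (h : v ∉ U) :
    v ∈ T.vs := by
  obtain ⟨k, hk⟩ := hf
  refine ⟨h, k, ?_⟩
  obtain ⟨u, rfl⟩ := Sym2.mem_iff_exists.1 hv
  exact (T.W k).fst_mem_support_of_mem_edges hk

/-- disjoint tripods -/
theorem tri_bound [Finite V] (X : Sym2 V → Sym2 V → Prop) (hs : ∀ f f', X f f' → X f' f)
    (h1 : ∀ f ∈ H.edgeSet, {f' | f' ∈ H.edgeSet ∧ X f f'}.ncard ≤ 1) (hP : PlanarLike H X)
    {I : Type} [Finite I] (T : I → Tri H U) (l : ℕ)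
    (hd : ∀ i j, i ≠ j → ∀ v ∈ (T i).vs, v ∉ (T j).vs) (hl : ∀ i k, ((T i).W k).length ≤ l) :
    Nat.card I ≤ (6 * l + 3) * (132 * U.ncard) := by
  classical
  have := Fintype.ofFinite V
  have := Fintype.ofFinite I
  have hV : ∀ v, phiV Finset.univ T (fun _ => (1 : ℝ)) v ≤ 1 := by
    intro v
    unfold phiV
    rw [Finset.sum_const, nsmul_eq_mul, mul_one]
    have h2 : (Finset.univ.filter fun j => v ∈ (T j).vs).card ≤ 1 := by
      refine Finset.card_le_one.2 fun i hi i' hi' => ?_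
      by_contra hne
      exact hd i i' hne v (Finset.mem_filter.1 hi).2 (Finset.mem_filter.1 hi').2
    exact_mod_cast h2
  have hE : ∀ f, phiE Finset.univ T (fun _ => (1 : ℝ)) f ≤ 1 := by
    intro f
    unfold phiE
    rw [Finset.sum_const, nsmul_eq_mul, mul_one]
    have h2 : (Finset.univ.filter fun j => f ∈ (T j).es).card ≤ 1 := by
      refine Finset.card_le_one.2 fun i hi i' hi' => ?_
      by_contra hne
      obtain ⟨v, hv, hv'⟩ := es_vs (T i) (Finset.mem_filter.1 hi).2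
      exact hd i i' hne v hv' (es_end (T i') (Finset.mem_filter.1 hi').2 hv hv'.1)
    exact_mod_cast h2
  have h2 := el_uniform X hs h1 hP Finset.univ T (fun _ => (1 : ℝ)) (fun _ _ => zero_le_one)
    (6 * l + 3) (by positivity) (by
      intro i _
      have h3 : ∑ v ∈ (T i).vs.toFinset, phiV Finset.univ T (fun _ => (1 : ℝ)) v ≤
          ((T i).vs.toFinset.card : ℝ) := by
        refine (Finset.sum_le_sum fun v _ => hV v).trans ?_
        rw [Finset.sum_const, nsmul_eq_mul, mul_one]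
      have h4 : ∑ f ∈ (T i).es.toFinset, phiE Finset.univ T (fun _ => (1 : ℝ)) f ≤
          ((T i).es.toFinset.card : ℝ) := by
        refine (Finset.sum_le_sum fun v _ => hE v).trans ?_
        rw [Finset.sum_const, nsmul_eq_mul, mul_one]
      have h5 : ((T i).vs.toFinset.card : ℝ) ≤ 3 * (l + 1) := by
        exact_mod_cast vs_card (T i) l (hl i)
      have h6 : ((T i).es.toFinset.card : ℝ) ≤ 3 * l := by
        exact_mod_cast es_card (T i) l (hl i)
      linarith)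
  rw [Finset.sum_const, nsmul_eq_mul, mul_one, Finset.card_univ] at h2
  rw [Nat.card_eq_fintype_card]
  exact_mod_cast h2

end tri

/-! ## the marks -/

section marks

variable {V P Q : Type} [Finite V] [Finite P] [Finite Q] {D : HD V P Q} {k k1 k2 j : ℕ}

/-- the marks -/
def CB (D : HD V P Q) (k k1 k2 j : ℕ) : Set P :=
  {p | T5 D k k2 p ∧ Lg2 D k1 k2 p ∧ Nat.log 2 (rho D k2 p) = j}

/-- facts about a mark -/
structure Fc (D : HD V P Q) (k k1 k2 j : ℕ) (p : P) : Prop where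
  t5 : T5 D k k2 p
  lg : Lg2 D k1 k2 p
  log : Nat.log 2 (rho D k2 p) = j
  lo : 2 ^ j ≤ rho D k2 p
  hi : rho D k2 p < 2 * 2 ^ j
  big : 256 < rho D k2 p
  rc : rho D k2 p < cap D
  ne : D.hub (pt1 D p) ≠ D.hub p
  pn : Pn D (e1 D p) (D.x p) (pt1 D p)
  e1c : e1 D p < cap D
  le1 : 128 * e1 D p < 2 * 2 ^ j
  len : 128 * (D.w p).length < 2 * 2 ^ j
  u1 : D.hub p ∈ UL D k1 j
  u2 : D.hub (pt1 D p) ∈ UL D k1 j

theorem facts (hD : D.Ok) (hB : Bad D k k2) (hk : k2 ≤ k) (hk1 : 10 ^ 6 * (k1 + 1) ≤ k) {p : P}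
    (hp : p ∈ CB D k k1 k2 j) : Fc D k k1 k2 j p := by
  obtain ⟨h5, h2, hj⟩ := hp
  obtain ⟨hs2, -, hsc, hsl⟩ := sg_le hD hB hk (by omega) p
  obtain ⟨he1, hlam⟩ := t5_e1 h5
  obtain ⟨hc, hne, hpn, hdeg⟩ := t5_cap hD hB hk (by omega) h5
  have h128 := h5.1
  have hlen : (D.w p).length ≤ sg D k2 p := le_max_left _ _
  have hlo : 2 ^ j ≤ rho D k2 p := by
    rw [← hj]
    exact Nat.pow_log_le_self 2 (by omega)
  have hhi : rho D k2 p < 2 * 2 ^ j := by
    have h1 := Nat.lt_pow_succ_log_self one_lt_two (rho D k2 p)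
    rw [hj, Nat.succ_eq_add_one, pow_succ] at h1
    omega
  have hk1' : k1 * 2 ^ j ≤ k1 * rho D k2 p := Nat.mul_le_mul_left _ hlo
  refine ⟨h5, h2, hj, hlo, hhi, by omega, hc, hne, hpn, by omega, by omega, by omega, ?_, ?_⟩
  · exact ⟨hD.hub_U p, lt_of_le_of_lt hk1' h2⟩
  · refine ⟨hD.hub_U _, lt_of_le_of_lt hk1' ?_⟩
    have h3 : 2 * k1 * rho D k2 p ≤ k * rho D k2 p := Nat.mul_le_mul_right _ (by omega)
    rw [Nat.mul_assoc] at h3
    omega

/-- two marks with the same hubs, joined by a cheap walk -/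
theorem pair_lem (hD : D.Ok) (hB : Bad D k k2) (hk : k2 ≤ k) (hk1 : 10 ^ 6 * (k1 + 1) ≤ k)
    {p p' : P} (h : Fc D k k1 k2 j p) (h' : Fc D k k1 k2 j p') (hne : p ≠ p')
    (hl : lam D p' ≤ lam D p)
    (hpair : s(D.hub p, D.hub (pt1 D p)) = s(D.hub p', D.hub (pt1 D p'))) {t : ℕ}
    (hR : Rch D (Fp D p) t (D.x p) (D.x p')) (ht : t ≤ 1000 * (k1 + 1) * 2 ^ j) :
    p = pt1 D p' := by
  by_contra hnp
  refine t5_pair hD hB hk (by omega) h.t5 hne hnp h'.e1c hl hpair (hR.mono le_rfl ?_)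
  have h1 := h.lo
  have h2 := h.big
  refine ht.trans ?_
  calc 1000 * (k1 + 1) * 2 ^ j ≤ 1000 * (k1 + 1) * (1000 * (rho D k2 p - 1)) :=
        Nat.mul_le_mul_left _ (by omega)
    _ = 10 ^ 6 * (k1 + 1) * (rho D k2 p - 1) := by ring
    _ ≤ k * (rho D k2 p - 1) := Nat.mul_le_mul_right _ hk1

/-- two near marks with the same hubs -/
theorem pair_nr (hD : D.Ok) (hB : Bad D k k2) (hk : k2 ≤ k) (hk1 : 10 ^ 6 * (k1 + 1) ≤ k)
    {p p' : P} (h : Fc D k k1 k2 j p) (h' : Fc D k k1 k2 j p') (hne : p ≠ p')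
    (hl : lam D p' ≤ lam D p)
    (hpair : s(D.hub p, D.hub (pt1 D p)) = s(D.hub p', D.hub (pt1 D p')))
    (hR : Nr D.N (32 * 2 ^ j) (D.x p) (D.x p')) : p = pt1 D p' := by
  refine pair_lem hD hB hk hk1 h h' hne hl hpair (Rch.of_nr hD p (hD.x_U p) hR)
    (Nat.mul_le_mul_right _ (by omega))

/-- no three near marks with the same hubs -/
theorem no_three' (hD : D.Ok) (hB : Bad D k k2) (hk : k2 ≤ k) (hk1 : 10 ^ 6 * (k1 + 1) ≤ k)
    {p p' m : P} (h : Fc D k k1 k2 j p) (h' : Fc D k k1 k2 j p') (hm : Fc D k k1 k2 j m)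
    (hne : p ≠ p') (h1 : m ≠ p) (h2 : m ≠ p') (hl : lam D p ≤ lam D m)
    (hl' : lam D p' ≤ lam D m)
    (e1 : s(D.hub m, D.hub (pt1 D m)) = s(D.hub p, D.hub (pt1 D p)))
    (e2 : s(D.hub m, D.hub (pt1 D m)) = s(D.hub p', D.hub (pt1 D p')))
    (hR : Nr D.N (32 * 2 ^ j) (D.x m) (D.x p)) (hR' : Nr D.N (32 * 2 ^ j) (D.x m) (D.x p')) :
    False := by
  have h3 := pair_nr hD hB hk hk1 hm h h1 hl e1 hR
  have h4 := pair_nr hD hB hk hk1 hm h' h2 hl' e2 hR'
  exact hne (t5_inj hD hB hk (by omega) h.t5 h'.t5 (h.log.trans h'.log.symm) (h3.symm.trans h4))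

theorem no_three (hD : D.Ok) (hB : Bad D k k2) (hk : k2 ≤ k) (hk1 : 10 ^ 6 * (k1 + 1) ≤ k)
    {p p' m : P} (h : Fc D k k1 k2 j p) (h' : Fc D k k1 k2 j p') (hm : Fc D k k1 k2 j m)
    (hne : p ≠ p') (h1 : p ≠ m) (h2 : p' ≠ m)
    (e1 : s(D.hub p, D.hub (pt1 D p)) = s(D.hub p', D.hub (pt1 D p')))
    (e2 : s(D.hub p, D.hub (pt1 D p)) = s(D.hub m, D.hub (pt1 D m)))
    (hR : Nr D.N (32 * 2 ^ j) (D.x p) (D.x p')) (hR' : Nr D.N (32 * 2 ^ j) (D.x p) (D.x m))
    (hR'' : Nr D.N (32 * 2 ^ j) (D.x p') (D.x m)) :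
    False := by
  rcases le_total (lam D p) (lam D p') with h3 | h3
  · rcases le_total (lam D p') (lam D m) with h4 | h4
    · exact no_three' hD hB hk hk1 h h' hm hne h1.symm h2.symm (h3.trans h4) h4 e2.symm
        (e2.symm.trans e1) hR'.symm hR''.symm
    · exact no_three' hD hB hk hk1 h hm h' h1 hne.symm h2 h3 h4 e1.symm
        (e1.symm.trans e2) hR.symm hR''
  · rcases le_total (lam D p) (lam D m) with h4 | h4
    · exact no_three' hD hB hk hk1 h h' hm hne h1.symm h2.symm h4 (h3.trans h4) e2.symm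
        (e2.symm.trans e1) hR'.symm hR''.symm
    · exact no_three' hD hB hk hk1 h' hm h h2 hne h1 h3 h4 e1 e2 hR hR'

end marks

/-- two pairs in a set of two elements -/
theorem pair_eq {V : Type} {S : Set V} (hf : S.Finite) (hS : S.ncard < 3) {a b c d : V}
    (ha : a ∈ S) (hb : b ∈ S) (hc : c ∈ S) (hd : d ∈ S) (hab : b ≠ a) (hcd : d ≠ c) :
    s(a, b) = s(c, d) := by
  have h1 : ({a, b} : Set V) = S := by
    refine Set.eq_of_subset_of_ncard_le ?_ ?_ hf
    · rintro x (rfl | rfl)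
      · exact ha
      · exact hb
    · rw [Set.ncard_pair hab.symm]
      omega
  rw [← h1] at hc hd
  rcases hc with rfl | rfl
  · rcases hd with rfl | rfl
    · exact absurd rfl hcd
    · rfl
  · rcases hd with rfl | rfl
    · exact Sym2.eq_swap
    · exact absurd rfl hcd

/-! ## centres -/

section centres

variable {V P Q : Type} {D : HD V P Q} {k k1 k2 j : ℕ}

theorem bv_mono [Finite V] {S T : Set V} (h : S ⊆ T) : bv D S ≤ bv D T :=
  Set.ncard_le_ncard (Set.inter_subset_inter_left _ h) (Set.toFinite _)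

/-- a mark has a big ball or a third hub nearby -/
theorem big_or_third [Finite V] [Finite P] [Finite Q] {p : P} (h : Fc D k k1 k2 j p) :
    k2 < bv D (D.ball (2 * 2 ^ j) (D.x p)) ∨ ∃ q, D.hub q ≠ D.hub p ∧ D.hub q ≠ D.hub (pt1 D p) ∧
      Pn D (2 * 2 ^ j) (D.x p) q := by
  have h1 := h.hi
  have h2 := h.rc
  rcases le_total (e2 D p) (Rb D k2 (D.x p)) with h3 | h3
  · right
    have h4 : rho D k2 p = e2 D p := min_eq_left h3
    rw [h4] at h1 h2
    obtain ⟨q, ha, hb, hc⟩ := e2_spec h2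
    exact ⟨q, ha, hb, hc.mono h1.le⟩
  · left
    have h4 : rho D k2 p = Rb D k2 (D.x p) := min_eq_right h3
    rw [h4] at h1 h2
    exact lt_of_lt_of_le (Rb_spec h2) (bv_mono (D.ball_mono h1.le _))

/-- three different hubs -/
theorem hub3 {p q : P} (h : Fc D k k1 k2 j p) (h1 : D.hub q ≠ D.hub p)
    (h2 : D.hub q ≠ D.hub (pt1 D p)) :
    Function.Injective fun i : Fin 3 => D.hub ((![q, p, pt1 D p] : Fin 3 → P) i) := by
  intro a b hab
  fin_cases a <;> fin_cases b
  · rfl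
  · exact absurd hab h1
  · exact absurd hab h2
  · exact absurd hab.symm h1
  · rfl
  · exact absurd hab.symm h.ne
  · exact absurd hab.symm h2
  · exact absurd hab h.ne
  · rfl

/-- the legs of a centre -/
theorem legs3 [Finite V] [Finite P] [Finite Q] {H : SimpleGraph V} {e0 : Sym2 V} {X : Sym2 V → Sym2 V → Prop} (hD : D.Ok)
    (hX : D.Dr H e0 X) {p q : P} (h : Fc D k k1 k2 j p) (h0 : Pn D (2 * 2 ^ j) (D.x p) q)
    (e1 : e0 ∉ (D.w p).edges) (e2 : e0 ∉ (D.w (pt1 D p)).edges) (e3 : e0 ∉ (D.w q).edges)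
    (i : Fin 3) : ∃ W : H.Walk (D.x p) (D.hub ((![q, p, pt1 D p] : Fin 3 → P) i)),
      W.length ≤ 2 * 2 ^ j ∧ ∀ z ∈ W.support, z = D.hub ((![q, p, pt1 D p] : Fin 3 → P) i) ∨
        (z ∉ D.U ∧ Near D (2 * 2 ^ j) (D.x p) z) := by
  have h1 := h.len
  have h2 := h.le1
  fin_cases i
  · exact exists_leg hD hX h0 e3
  · exact exists_leg hD hX (Pn.self (by omega)) e1
  · exact exists_leg hD hX (h.pn.mono (by omega)) e2

end centres

/-- **Centres.** -/
theorem centres : ∃ A : ℕ, ∀ (V P Q : Type) [Finite V] [Finite P] [Finite Q] (D : HD V P Q)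
    (H : SimpleGraph V) (e0 : Sym2 V) (X : Sym2 V → Sym2 V → Prop) (k k1 k2 j : ℕ), D.Ok →
    D.Dr H e0 X → Bad D k k2 → k2 ≤ k → 10 ^ 6 * (k1 + 1) ≤ k →
    ∀ C : Set P, C ⊆ CB D k k1 k2 j →
    (∀ p ∈ C, e0 ∉ (D.w p).edges ∧ e0 ∉ (D.w (pt1 D p)).edges) →
    (∀ p ∈ C, ∀ p' ∈ C, p ≠ p' → ¬ Nr D.N (16 * 2 ^ j) (D.x p) (D.x p')) →
    (k2 + 1) * C.ncard ≤
      (k2 + 1) * (A * (2 ^ j * (UL D k1 j).ncard + D.U.ncard) + 1) + (Vb D).ncard := by
  obtain ⟨A, hA⟩ := TSb
  refine ⟨3 * A + 2000, ?_⟩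
  intro V P Q _ _ _ D H e0 X k k1 k2 j hD hX hB hk hk1 C hC he hsep
  have hF : ∀ p ∈ C, Fc D k k1 k2 j p := fun p hp => facts hD hB hk hk1 (hC hp)
  -- the third hub
  have hr : ∀ p, ∃ q, (∃ q, D.hub q ≠ D.hub p ∧ D.hub q ≠ D.hub (pt1 D p) ∧
      Pn D (2 * 2 ^ j) (D.x p) q) → D.hub q ≠ D.hub p ∧ D.hub q ≠ D.hub (pt1 D p) ∧
      Pn D (2 * 2 ^ j) (D.x p) q := by
    intro p
    by_cases h : ∃ q, D.hub q ≠ D.hub p ∧ D.hub q ≠ D.hub (pt1 D p) ∧
      Pn D (2 * 2 ^ j) (D.x p) q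
    · obtain ⟨q, hq⟩ := h
      exact ⟨q, fun _ => hq⟩
    · exact ⟨p, fun h' => absurd h' h⟩
  choose r hr using hr
  set C1 : Set P := {p | p ∈ C ∧ k2 < bv D (D.ball (2 * 2 ^ j) (D.x p))} with hC1
  set C2 : Set P := {p | p ∈ C ∧ D.hub (r p) ≠ D.hub p ∧ D.hub (r p) ≠ D.hub (pt1 D p) ∧
      Pn D (2 * 2 ^ j) (D.x p) (r p)} with hC2
  set C3 : Set P := {p | p ∈ C2 ∧ e0 ∈ (D.w (r p)).edges} with hC3
  set C4 : Set P := {p | p ∈ C2 ∧ e0 ∉ (D.w (r p)).edges ∧ D.hub (r p) ∈ UL D k1 j} with hC4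
  set C5 : Set P := {p | p ∈ C2 ∧ e0 ∉ (D.w (r p)).edges ∧ D.hub (r p) ∉ UL D k1 j} with hC5
  have hcov : C ⊆ C1 ∪ (C3 ∪ (C4 ∪ C5)) := by
    intro p hp
    rcases big_or_third (hF p hp) with h | h
    · exact Or.inl ⟨hp, h⟩
    · right
      have h2 : p ∈ C2 := ⟨hp, hr p h⟩
      by_cases h3 : e0 ∈ (D.w (r p)).edges
      · exact Or.inl ⟨h2, h3⟩
      · right
        by_cases h4 : D.hub (r p) ∈ UL D k1 j
        · exact Or.inl ⟨h2, h3, h4⟩
        · exact Or.inr ⟨h2, h3, h4⟩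
  have hsum : C.ncard ≤ C1.ncard + (C3.ncard + (C4.ncard + C5.ncard)) := by
    refine (Set.ncard_le_ncard hcov (Set.toFinite _)).trans ((Set.ncard_union_le _ _).trans ?_)
    refine Nat.add_le_add_left ((Set.ncard_union_le _ _).trans ?_) _
    exact Nat.add_le_add_left (Set.ncard_union_le _ _) _
  -- separated
  have hsep4 : ∀ p ∈ C, ∀ p' ∈ C, Nr D.N (2 * (2 * 2 ^ j)) (D.x p) (D.x p') → p = p' := by
    intro p hp p' hp' h
    by_contra hne
    exact hsep p hp p' hp' hne (h.mono (by omega))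
  -- big balls
  have b1 : (k2 + 1) * C1.ncard ≤ (Vb D).ncard := by
    refine big_few D (2 * 2 ^ j) C1 ?_ fun p hp => hp.2
    intro p hp p' hp' hne h
    exact hne (hsep4 p hp.1 p' hp'.1 h)
  -- the pin with `e0`
  have b3 : C3.ncard ≤ 1 := by
    rw [Set.ncard_le_one (Set.toFinite _)]
    intro p hp p' hp'
    have h1 := pin_uniq hD hp.2 hp'.2
    obtain ⟨s, h2, h3⟩ := hp.1.2.2.2
    obtain ⟨s', h2', h3'⟩ := hp'.1.2.2.2
    rw [← h1] at h2'
    exact hsep4 p hp.1.1 p' hp'.1.1 ((h2.trans h2'.symm).mono (by omega))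
  -- the legs
  have hlegs : ∀ p, ∀ i : Fin 3, p ∈ C2 → e0 ∉ (D.w (r p)).edges →
      ∃ W : H.Walk (D.x p) (D.hub ((![r p, p, pt1 D p] : Fin 3 → P) i)),
      W.length ≤ 2 * 2 ^ j ∧ ∀ z ∈ W.support, z = D.hub ((![r p, p, pt1 D p] : Fin 3 → P) i) ∨
        (z ∉ D.U ∧ Near D (2 * 2 ^ j) (D.x p) z) := by
    intro p i hp h
    exact legs3 hD hX (hF p hp.1) hp.2.2.2 (he p hp.1).1 (he p hp.1).2 h i
  have hULf : UL D k1 j ⊆ D.U := fun a ha => ha.1
  have hinj : ∀ p ∈ C2, Function.Injective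
      fun i : Fin 3 => D.hub ((![r p, p, pt1 D p] : Fin 3 → P) i) := by
    intro p hp
    exact hub3 (hF p hp.1) hp.2.1 hp.2.2.1
  -- three large hubs
  have b4 : C4.ncard ≤ (6 * (2 * 2 ^ j) + 3) * (132 * (UL D k1 j).ncard) := by
    have hW : ∀ p : C4, ∀ i : Fin 3,
        ∃ W : H.Walk (D.x p) (D.hub ((![r p, p, pt1 D p] : Fin 3 → P) i)),
        W.length ≤ 2 * 2 ^ j ∧ ∀ z ∈ W.support,
          z = D.hub ((![r p, p, pt1 D p] : Fin 3 → P) i) ∨
          (z ∉ D.U ∧ Near D (2 * 2 ^ j) (D.x p) z) := by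
      intro p i
      exact hlegs p i p.2.1 p.2.2.1
    choose W hW1 hW2 using hW
    have hT : ∀ p : C4, ∃ T : Tri H (UL D k1 j), (∀ i, (T.W i).length ≤ 2 * 2 ^ j) ∧
        ∀ z ∈ T.vs, Near D (2 * 2 ^ j) (D.x p) z := by
      intro p
      refine ⟨⟨D.x p, fun i => D.hub ((![r p, p, pt1 D p] : Fin 3 → P) i), W p,
        fun h => hD.x_U _ (hULf h), ?_, hinj p p.2.1, ?_⟩, fun i => hW1 p i, ?_⟩
      · intro i
        fin_cases i
        · exact p.2.2.2
        · exact (hF p p.2.1.1).u1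
        · exact (hF p p.2.1.1).u2
      · intro i z hz hzU
        rcases hW2 p i z hz with h | h
        · exact h
        · exact absurd (hULf hzU) h.1
      · rintro z ⟨hz, i, hi⟩
        rcases hW2 p i z hi with h | h
        · exfalso
          apply hz
          rw [h]
          fin_cases i
          · exact p.2.2.2
          · exact (hF p p.2.1.1).u1
          · exact (hF p p.2.1.1).u2
        · exact h.2
    choose T hT1 hT2 using hT
    have h1 := tri_bound X hX.sym hX.one hX.pl T (2 * 2 ^ j) (by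
      intro p p' hne z hz hz'
      exact hne (Subtype.ext (hsep4 p p.2.1.1 p' p'.2.1.1 ((hT2 p z hz).two hD (hT2 p' z hz'))))) hT1
    rwa [Nat.card_coe_set_eq] at h1
  -- a small hub
  have b5 : C5.ncard ≤ A * ((2 * 2 ^ j + 1) * (UL D k1 j).ncard + D.U.ncard) := by
    have hW : ∀ p : C5, ∀ i : Fin 3,
        ∃ W : H.Walk (D.x p) (D.hub ((![r p, p, pt1 D p] : Fin 3 → P) i)),
        W.length ≤ 2 * 2 ^ j ∧ ∀ z ∈ W.support,
          z = D.hub ((![r p, p, pt1 D p] : Fin 3 → P) i) ∨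
          (z ∉ D.U ∧ Near D (2 * 2 ^ j) (D.x p) z) := by
      intro p i
      exact hlegs p i p.2.1 p.2.2.1
    choose W hW1 hW2 using hW
    have hU12 : ∀ p : C5, ∀ i : Fin 3, i ≠ 0 →
        D.hub ((![r p, p, pt1 D p] : Fin 3 → P) i) ∈ UL D k1 j := by
      intro p i hi
      fin_cases i
      · exact absurd rfl hi
      · exact (hF p p.2.1.1).u1
      · exact (hF p p.2.1.1).u2
    have hUD : ∀ p : C5, ∀ i : Fin 3,
        D.hub ((![r p, p, pt1 D p] : Fin 3 → P) i) ∈ D.U := fun p i => hD.hub_U _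
    have hin : ∀ p : C5, ∀ i, ∀ z ∈ (W p i).support, z ∈ D.U →
        z = D.hub ((![r p, p, pt1 D p] : Fin 3 → P) i) := by
      intro p i z hz hzU
      rcases hW2 p i z hz with h | h
      · exact h
      · exact absurd hzU h.1
    have h1 := hA H X hX.sym hX.one hX.pl (UL D k1 j) (fun p : C5 => D.x p)
      (fun p i => D.hub ((![r p, p, pt1 D p] : Fin 3 → P) i)) W (2 * 2 ^ j)
      (fun p h => hD.x_U _ (hULf h))
      (fun p h => hD.x_U p (h ▸ hD.hub_U _))
      (fun p => p.2.2.2) (fun p => hU12 p 1 (by decide)) (fun p => hU12 p 2 (by decide))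
      (fun p h => absurd (hinj p p.2.1 h) (by decide))
      (fun p i z hz hzU => hin p i z hz (hULf hzU))
      (by
        intro p i hi h
        have h2 := hin p i _ h (hUD p 0)
        exact hi (hinj p p.2.1 h2.symm))
      (by
        intro p p' hne i i' z hz hz'
        by_cases hzU : z ∈ D.U
        · by_cases hzL : z ∈ UL D k1 j
          · exact Or.inl hzL
          · right
            have h2 := hin p i z hz hzU
            have h3 := hin p' i' z hz' hzU
            have h4 : i = 0 := by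
              by_contra h4
              exact hzL (h2 ▸ hU12 p i h4)
            have h5 : i' = 0 := by
              by_contra h5
              exact hzL (h3 ▸ hU12 p' i' h5)
            subst h4
            subst h5
            exact ⟨h2, h3⟩
        · exfalso
          rcases hW2 p i z hz with h | h
          · exact hzU (h ▸ hUD p i)
          · rcases hW2 p' i' z hz' with h' | h'
            · exact hzU (h' ▸ hUD p' i')
            · exact hne (Subtype.ext (hsep4 p p.2.1.1 p' p'.2.1.1 (h.2.two hD h'.2))))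
      hW1
      (by
        have key : ∀ p p' : C5, p ≠ p' → D.hub (r p) = D.hub (r p') →
            lam D (p' : P) ≤ lam D (p : P) →
            s(D.hub p, D.hub (pt1 D p)) ≠ s(D.hub p', D.hub (pt1 D p')) := by
          intro p p' hne hs hl hpair
          have hF1 := hF p p.2.1.1
          have hF2 := hF p' p'.2.1.1
          have hne' : (p : P) ≠ p' := fun h => hne (Subtype.ext h)
          obtain ⟨s, hs1, hs2⟩ := p.2.1.2.2.2
          obtain ⟨s', hs1', hs2'⟩ := p'.2.1.2.2.2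
          have hr1 : r p ≠ p := by
            intro h
            exact p.2.1.2.1 (by rw [h])
          have hr2 : r p' ≠ p := by
            intro h
            exact p.2.1.2.1 (by rw [hs, h])
          have hdeg : deg D.G (D.hub (r p)) ≤ k1 * 2 ^ j := by
            by_contra hcon
            exact p.2.2.2 ⟨hD.hub_U _, by omega⟩
          have R1 : Rch D (Fp D p) ((D.w (r p)).length + deg D.G (D.hub (r p))) (D.x (r p))
            (D.hub (r p)) := Rch.pin hD hr1
          have R2 : Rch D (Fp D p) ((D.w (r p')).length + deg D.G (D.hub (r p'))) (D.x (r p'))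
            (D.hub (r p')) := Rch.pin hD hr2
          have R0 : Rch D (Fp D p) s (D.x p) (D.x (r p)) := Rch.of_nr hD p (hD.x_U _) hs1
          have R3 : Rch D (Fp D p) s' (D.x p') (D.x (r p')) := Rch.of_nr hD p (hD.x_U _) hs1'
          have hdeg' : deg D.G (D.hub (r p')) ≤ k1 * 2 ^ j := by
            rw [← hs]
            exact hdeg
          have R2' : Rch D (Fp D p) (2 * 2 ^ j + k1 * 2 ^ j) (D.x (r p')) (D.hub (r p)) := by
            rw [hs]
            exact R2.mono le_rfl (by omega)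
          have R4 := ((R0.trans R1).trans R2'.symm).trans R3.symm
          have h3 := pair_lem hD hB hk hk1 hF1 hF2 hne' hl hpair R4 (by
            have h5 : 1000 * (k1 + 1) * 2 ^ j = 1000 * (k1 * 2 ^ j) + 1000 * 2 ^ j := by ring
            rw [h5]
            omega)
          have h4 := hF2.pn
          rw [← h3] at h4
          obtain ⟨s1, h5, h6⟩ := h4
          have h7 := hF2.le1
          exact hne' (hsep4 p p.2.1.1 p' p'.2.1.1 (h5.symm.mono (by omega)))
        intro p p' hne hs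
        rcases le_total (lam D (p' : P)) (lam D (p : P)) with hl | hl
        · exact key p p' hne hs hl
        · exact (key p' p hne.symm hs.symm hl).symm)
    rw [Nat.card_coe_set_eq] at h1
    refine h1.trans (Nat.mul_le_mul_left _ (Nat.add_le_add_left ?_ _))
    refine Set.ncard_le_ncard ?_ (Set.toFinite _)
    rintro _ ⟨p, rfl⟩
    exact hD.hub_U _
  have hpos : 1 ≤ 2 ^ j := Nat.one_le_two_pow
  have b45 : C4.ncard + C5.ncard ≤ (3 * A + 2000) * (2 ^ j * (UL D k1 j).ncard + D.U.ncard) := by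
    have e1 : (6 * (2 * 2 ^ j) + 3) * (132 * (UL D k1 j).ncard) ≤
        2000 * (2 ^ j * (UL D k1 j).ncard) := by
      calc (6 * (2 * 2 ^ j) + 3) * (132 * (UL D k1 j).ncard)
          ≤ (15 * 2 ^ j) * (132 * (UL D k1 j).ncard) := Nat.mul_le_mul_right _ (by omega)
        _ = 1980 * (2 ^ j * (UL D k1 j).ncard) := by ring
        _ ≤ _ := Nat.mul_le_mul_right _ (by norm_num)
    have e2 : A * ((2 * 2 ^ j + 1) * (UL D k1 j).ncard + D.U.ncard) ≤
        3 * A * (2 ^ j * (UL D k1 j).ncard + D.U.ncard) := by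
      calc A * ((2 * 2 ^ j + 1) * (UL D k1 j).ncard + D.U.ncard)
          ≤ A * ((3 * 2 ^ j) * (UL D k1 j).ncard + 3 * D.U.ncard) :=
            Nat.mul_le_mul_left _ (Nat.add_le_add (Nat.mul_le_mul_right _ (by omega)) (by omega))
        _ = 3 * A * (2 ^ j * (UL D k1 j).ncard + D.U.ncard) := by ring
    have e3 : 2000 * (2 ^ j * (UL D k1 j).ncard) ≤
        2000 * (2 ^ j * (UL D k1 j).ncard + D.U.ncard) := Nat.mul_le_mul_left _ (by omega)
    rw [Nat.add_mul]
    omega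
  calc (k2 + 1) * C.ncard ≤ (k2 + 1) * (C1.ncard + (C3.ncard + (C4.ncard + C5.ncard))) :=
        Nat.mul_le_mul_left _ hsum
    _ = (k2 + 1) * (C4.ncard + C5.ncard + C3.ncard) + (k2 + 1) * C1.ncard := by ring
    _ ≤ _ := Nat.add_le_add (Nat.mul_le_mul_left _ (Nat.add_le_add b45 b3)) b1

/-- **PL-9 (CD).** `T5` pins with large hubs, secondary scale. -/
theorem CD : ∃ A : ℕ, ∀ (V P Q : Type) [Finite V] [Finite P] [Finite Q] (D : HD V P Q)
    (H : SimpleGraph V) (e0 : Sym2 V) (X : Sym2 V → Sym2 V → Prop) (k k1 k2 j : ℕ), D.Ok →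
    D.Dr H e0 X → Bad D k k2 → k2 ≤ k → 10 ^ 6 * (k1 + 1) ≤ k →
    (k2 + 1) * {p | T5 D k k2 p ∧ Lg2 D k1 k2 p ∧ Nat.log 2 (rho D k2 p) = j}.ncard ≤
      A * ((k2 + 1) * (D.Kh * D.r * (k2 + 1) * 2 ^ j * (UL D k1 j).ncard + D.U.ncard) +
        (Vb D).ncard) := by
  obtain ⟨A, hA⟩ := CG
  obtain ⟨A', hA'⟩ := centres
  refine ⟨17 * A + 2 * A' + 4, ?_⟩
  intro V P Q _ _ _ D H e0 X k k1 k2 j hD hX hB hk hk1
  show (k2 + 1) * (CB D k k1 k2 j).ncard ≤ _
  have hF : ∀ p ∈ CB D k k1 k2 j, Fc D k k1 k2 j p := fun p hp => facts hD hB hk hk1 hp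
  rcases Set.eq_empty_or_nonempty (CB D k k1 k2 j) with h0 | ⟨p0, hp0⟩
  · rw [h0, Set.ncard_empty, Nat.mul_zero]
    exact Nat.zero_le _
  have hpos : 1 ≤ 2 ^ j := Nat.one_le_two_pow
  have hUpos : 1 ≤ D.U.ncard := (Set.ncard_pos (Set.toFinite _)).2 ⟨_, hD.hub_U p0⟩
  have hKh : 1 ≤ D.Kh * D.r := by
    have h1 := hD.three p0
    have h2 := hD.dg_le _ (hD.x_U p0)
    omega
  set B0 : Set P := {p | p ∈ CB D k k1 k2 j ∧ e0 ∉ (D.w p).edges ∧ e0 ∉ (D.w (pt1 D p)).edges}
    with hB0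
  set B1 : Set P := {p | p ∈ CB D k k1 k2 j ∧ e0 ∈ (D.w p).edges} with hB1
  set B2 : Set P := {p | p ∈ CB D k k1 k2 j ∧ e0 ∈ (D.w (pt1 D p)).edges} with hB2
  have hcov : CB D k k1 k2 j ⊆ B0 ∪ (B1 ∪ B2) := by
    intro p hp
    by_cases h1 : e0 ∈ (D.w p).edges
    · exact Or.inr (Or.inl ⟨hp, h1⟩)
    · by_cases h2 : e0 ∈ (D.w (pt1 D p)).edges
      · exact Or.inr (Or.inr ⟨hp, h2⟩)
      · exact Or.inl ⟨hp, h1, h2⟩
  have hsum : (CB D k k1 k2 j).ncard ≤ B0.ncard + (B1.ncard + B2.ncard) := by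
    refine (Set.ncard_le_ncard hcov (Set.toFinite _)).trans ((Set.ncard_union_le _ _).trans ?_)
    exact Nat.add_le_add_left (Set.ncard_union_le _ _) _
  have b1 : B1.ncard ≤ 1 := by
    rw [Set.ncard_le_one (Set.toFinite _)]
    intro p hp p' hp'
    exact pin_uniq hD hp.2 hp'.2
  have b2 : B2.ncard ≤ 1 := by
    rw [Set.ncard_le_one (Set.toFinite _)]
    intro p hp p' hp'
    have h1 := hF p hp.1
    have h2 := hF p' hp'.1
    exact t5_inj hD hB hk (by omega) h1.t5 h2.t5 (h1.log.trans h2.log.symm)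
      (pin_uniq hD hp.2 hp'.2)
  obtain ⟨C, hCB, hsep, hcent⟩ := exists_sep D B0 (16 * 2 ^ j)
  have hC := hA' V P Q D H e0 X k k1 k2 j hD hX hB hk hk1 C (fun p hp => (hCB hp).1)
    (fun p hp => (hCB hp).2) hsep
  have hG := hA V P Q D H e0 X hD hX (UL D k1 j) (16 * 2 ^ j) (2 ^ j / 32) (D.Kh * D.r * k2)
    B0 C (pt1 D) (fun a ha => ha.1) hCB (by omega) hcent
    (by
      intro p hp
      have h1 := hF p hp.1
      have h2 := h1.len
      have h3 := h1.le1
      obtain ⟨s, h4, h5⟩ := h1.pn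
      exact ⟨h1.u1, h1.u2, hp.2.1, hp.2.2, by omega, by omega, h4.mono (by omega)⟩)
    (by
      intro v
      rcases Set.eq_empty_or_nonempty {p | p ∈ B0 ∧ Nr D.N (2 ^ j / 32) v (D.x p)} with
        h0 | ⟨p1, hp1, hv⟩
      · rw [h0, Set.ncard_empty]
        exact Nat.zero_le _
      · have h1 := hF p1 hp1.1
        have h2 := h1.lo
        have h3 : rho D k2 p1 ≤ Rb D k2 (D.x p1) := min_le_right _ _
        refine (Set.ncard_le_ncard ?_ (Set.toFinite _)).trans
          (pins_ball hD (Rb_lt (t := 2 * (2 ^ j / 32)) (by omega : _ < Rb D k2 (D.x p1))))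
        intro p hp
        exact (hv.symm.trans hp.2).mono (by omega))
    (by
      intro p hp p' hp' p'' hp'' h1 h2 h3 h4 h5 h6
      by_contra hcon
      have f1 := hF p hp.1
      have f2 := hF p' hp'.1
      have f3 := hF p'' hp''.1
      have hfin := Set.toFinite ({D.hub p, D.hub (pt1 D p), D.hub p', D.hub (pt1 D p'), D.hub p'',
        D.hub (pt1 D p'')} : Set V)
      refine no_three hD hB hk hk1 f1 f2 f3 h1 h2 h3
        (pair_eq hfin (by omega) (by simp) (by simp) (by simp) (by simp) f1.ne f2.ne)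
        (pair_eq hfin (by omega) (by simp) (by simp) (by simp) (by simp) f1.ne f3.ne)
        (h4.mono (by omega)) (h5.mono (by omega)) (h6.mono (by omega)))
  -- arithmetic
  set u : ℕ := (UL D k1 j).ncard with hu
  set K : ℕ := D.Kh * D.r with hK
  set m : ℕ := 2 ^ j with hm
  have g1 : A * (16 * m + 1) * (K + K * k2) * u ≤ 17 * A * (K * (k2 + 1) * m * u) := by
    calc A * (16 * m + 1) * (K + K * k2) * u ≤ A * (17 * m) * (K + K * k2) * u :=
          Nat.mul_le_mul_right _ (Nat.mul_le_mul_right _ (Nat.mul_le_mul_left _ (by omega)))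
      _ = 17 * A * (K * (k2 + 1) * m * u) := by ring
  have g2 : m * u ≤ K * (k2 + 1) * m * u := by
    calc m * u = 1 * 1 * m * u := by ring
      _ ≤ K * (k2 + 1) * m * u := Nat.mul_le_mul_right _ (Nat.mul_le_mul_right _
          (Nat.mul_le_mul hKh (by omega)))
  set Z : ℕ := K * (k2 + 1) * m * u + D.U.ncard with hZ
  have g3 : B0.ncard ≤ 17 * A * Z + 2 * C.ncard := by
    refine hG.trans (Nat.add_le_add_right (g1.trans (Nat.mul_le_mul_left _ (by omega))) _)
  have g4 : (k2 + 1) * C.ncard ≤ (k2 + 1) * (A' * Z + Z) + (Vb D).ncard := by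
    refine hC.trans (Nat.add_le_add_right (Nat.mul_le_mul_left _ (Nat.add_le_add
      (Nat.mul_le_mul_left _ (by omega)) (by omega))) _)
  calc (k2 + 1) * (CB D k k1 k2 j).ncard ≤ (k2 + 1) * (17 * A * Z + 2 * C.ncard + 2) :=
        Nat.mul_le_mul_left _ (by omega)
    _ ≤ (k2 + 1) * (17 * A * Z + 2 * C.ncard + 2 * Z) := Nat.mul_le_mul_left _ (by omega)
    _ = (k2 + 1) * (17 * A * Z + 2 * Z) + 2 * ((k2 + 1) * C.ncard) := by ring
    _ ≤ (k2 + 1) * (17 * A * Z + 2 * Z) + 2 * ((k2 + 1) * (A' * Z + Z) + (Vb D).ncard) :=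
        Nat.add_le_add_left (Nat.mul_le_mul_left _ g4) _
    _ = (17 * A + 2 * A' + 4) * ((k2 + 1) * Z) + 2 * (Vb D).ncard := by ring
    _ ≤ (17 * A + 2 * A' + 4) * ((k2 + 1) * Z) + (17 * A + 2 * A' + 4) * (Vb D).ncard :=
        Nat.add_le_add_left (Nat.mul_le_mul_right _ (by omega)) _
    _ = (17 * A + 2 * A' + 4) * ((k2 + 1) * Z + (Vb D).ncard) := by ring

end Pool.Agent.Helper75.PL
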